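import Mathlib
import Pool.Agent.H472R3.SF.Defs
import Pool.Agent.H472R3.SF.Main

set_option autoImplicit false

/-!
# Stable freeness of an arrangement is not determined by its intersection lattice
-/

namespace Pool.Agent.Results.MP_48904d_ag.StableFreeness

open Pool.Agent.H472R3.SF

/-- Over every field of characteristic zero there are two arrangements of eleven distinct
hyperplanes in projective `4`-space with isomorphic intersection lattices, the first of which is
stably free while the second is not. -/
theorem result : ∀ (K : Type) [Field K] [CharZero K],
    ∃ A₁ A₂ : Fin 11 → Fin 5 → K, IsArrangement A₁ ∧ IsArrangement A₂ ∧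
      Nonempty (Lattice A₁ ≃o Lattice A₂) ∧ StablyFree A₁ ∧ ¬ StablyFree A₂ := by
  intro K _ _
  exact main

end Pool.Agent.Results.MP_48904d_ag.StableFreeness
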